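import Pool.Agent.N839.LS.M1a

/-!
# Part M1 of the project LS: groups without parabolics are cocompact
-/

set_option autoImplicit false

namespace Pool.Agent.N839.LS

open Pool.Agent.N530.LS Matrix Complex Filter Topology

theorem pow_ne {G : Subgroup SL2C} (hT : TF G) {A : SL2C} (hA : A ∈ G) (h1 : A ≠ 1)
    (h2 : A ≠ -1) {k : ℕ} (hk : 0 < k) : A ^ k ≠ 1 ∧ A ^ k ≠ -1 := by
  constructor
  · intro h
    rcases hT A hA k hk (Or.inl h) with h3 | h3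
    · exact h1 h3
    · exact h2 h3
  · intro h
    rcases hT A hA k hk (Or.inr h) with h3 | h3
    · exact h1 h3
    · exact h2 h3

theorem conj_pow' (g A : SL2C) (k : ℕ) : (g⁻¹ * A * g) ^ k = g⁻¹ * A ^ k * g := by
  have := conj_pow (i := k) (a := g⁻¹) (b := A)
  rwa [inv_inv] at this

theorem same (hMa : StmMa) (hMb : StmMb) : ∃ ε : ℝ, 0 < ε ∧ ∀ G : Subgroup SL2C, Disc G → TF G →
    ∀ (x : H3) (h A B : SL2C), A ∈ G → A ≠ 1 → A ≠ -1 → B ∈ G → B ≠ 1 → B ≠ -1 →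
      dl (act A x) x ≤ ε → dl (act B x) x ≤ ε → Dg h A → Dg h B := by
  obtain ⟨c₀, hc₀, hMa⟩ := hMa
  obtain ⟨ε, hε, N, hMb⟩ := hMb (min c₀ 1) (lt_min hc₀ one_pos)
  refine ⟨ε, hε, ?_⟩
  intro G hG hT x h A B hA hA1 hA2 hB hB1 hB2 hdA hdB hDA
  set c := min c₀ 1 with hc
  have hcc : c ≤ c₀ := min_le_left _ _
  have hc1 : c ≤ 1 := min_le_right _ _
  -- small powers
  obtain ⟨k, hk, -, hkA⟩ := hMb ((up x)⁻¹ * A * up x) (by rw [fro_up_conj]; linarith)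
  obtain ⟨l, hl, -, hlB⟩ := hMb ((up x)⁻¹ * B * up x) (by rw [fro_up_conj]; linarith)
  rw [conj_pow'] at hkA hlB
  obtain ⟨hAk1, hAk2⟩ := pow_ne hT hA hA1 hA2 hk
  obtain ⟨hBl1, hBl2⟩ := pow_ne hT hB hB1 hB2 hl
  have hAkG : A ^ k ∈ G := G.pow_mem hA k
  have hBlG : B ^ l ∈ G := G.pow_mem hB l
  -- the minimal element
  obtain ⟨P, ⟨hPG, hPd, hP1⟩, hPmin⟩ := Set.exists_min_image
    {A : SL2C | A ∈ G ∧ ds ((up x)⁻¹ * A * up x) ≤ c ∧ A ≠ 1}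
    (fun A => ds ((up x)⁻¹ * A * up x))
    ((finite_ds hG x c).subset (fun A hA => ⟨hA.1, hA.2.1⟩)) ⟨A ^ k, hAkG, hkA, hAk1⟩
  have hP2 : P ≠ -1 := by
    intro h0
    rw [h0] at hPd
    have : (up x)⁻¹ * (-1) * up x = -1 := by simp
    rw [this] at hPd
    unfold ds at hPd
    rw [neg_00, neg_01, neg_10, neg_11] at hPd
    norm_num at hPd
    linarith
  have hPpos : 0 < ds ((up x)⁻¹ * P * up x) := by
    rcases (ds_nonneg ((up x)⁻¹ * P * up x)).lt_or_eq with h0 | h0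
    · exact h0
    · exfalso
      have h3 := ds_eq_zero h0.symm
      apply hP1
      have : P = up x * ((up x)⁻¹ * P * up x) * (up x)⁻¹ := by group
      rw [this, h3]
      group
  have key : ∀ Q ∈ G, ds ((up x)⁻¹ * Q * up x) ≤ c → P * Q = Q * P := by
    intro Q hQ hQd
    by_contra hne
    have hcomm : P * Q * P⁻¹ * Q⁻¹ ≠ 1 := by
      intro h0
      apply hne
      have : P * Q = (P * Q * P⁻¹ * Q⁻¹) * (Q * P) := by group
      rw [this, h0, one_mul]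
    have e : (up x)⁻¹ * (P * Q * P⁻¹ * Q⁻¹) * up x =
        ((up x)⁻¹ * P * up x) * ((up x)⁻¹ * Q * up x) * ((up x)⁻¹ * P * up x)⁻¹ *
          ((up x)⁻¹ * Q * up x)⁻¹ := by group
    have h1 := hMa ((up x)⁻¹ * P * up x) ((up x)⁻¹ * Q * up x) (hPd.trans hcc) (hQd.trans hcc)
    rw [← e] at h1
    have h2 := hPmin (P * Q * P⁻¹ * Q⁻¹)
      ⟨G.mul_mem (G.mul_mem (G.mul_mem hPG hQ) (G.inv_mem hPG)) (G.inv_mem hQ), by linarith, hcomm⟩
    linarith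
  have c1 : P * A ^ k = A ^ k * P := key _ hAkG hkA
  have c2 : P * B ^ l = B ^ l * P := key _ hBlG hlB
  have d1 : Dg h (A ^ k) := comm_diag hDA hA1 hA2 ((Commute.refl A).pow_right k)
  have d2 : Dg h P := comm_diag d1 hAk1 hAk2 c1.symm
  have d3 : Dg h (B ^ l) := comm_diag d2 hP1 hP2 c2
  exact comm_diag d3 hBl1 hBl2 ((Commute.refl B).pow_left l)

/-- a point with given absolute value -/
theorem exists_ext (z : ℂ) (ρ : ℝ) (h : ‖z‖ ≤ ρ) : ∃ w : ℂ, ‖w‖ = ρ ∧ ‖z - w‖ ≤ ρ := by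
  have hρ : 0 ≤ ρ := (norm_nonneg z).trans h
  by_cases hz : z = 0
  · refine ⟨(ρ : ℂ), ?_, ?_⟩
    · rw [Complex.norm_real, Real.norm_of_nonneg hρ]
    · rw [hz, zero_sub, norm_neg, Complex.norm_real, Real.norm_of_nonneg hρ]
  · have hz' : 0 < ‖z‖ := norm_pos_iff.mpr hz
    have hr : 1 ≤ ρ / ‖z‖ := by rwa [le_div_iff₀ hz', one_mul]
    refine ⟨((ρ / ‖z‖ : ℝ) : ℂ) * z, ?_, ?_⟩
    · rw [norm_mul, Complex.norm_real, Real.norm_of_nonneg (by linarith)]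
      field_simp
    · have e : z - ((ρ / ‖z‖ : ℝ) : ℂ) * z = ((1 - ρ / ‖z‖ : ℝ) : ℂ) * z := by
        push_cast
        ring
      rw [e, norm_mul, Complex.norm_real, Real.norm_of_nonpos (by linarith)]
      have : ρ / ‖z‖ * ‖z‖ = ρ := by field_simp
      nlinarith

/-- moving away from the axis -/
theorem reach {ε : ℝ} {G : Subgroup SL2C} (hG : Disc G)
    (hsame : ∀ (x : H3) (h A B : SL2C), A ∈ G → A ≠ 1 → A ≠ -1 → B ∈ G → B ≠ 1 → B ≠ -1 →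
      dl (act A x) x ≤ ε → dl (act B x) x ≤ ε → Dg h A → Dg h B)
    (hnp : ∀ A ∈ G, A ≠ 1 → A ≠ -1 → trc A ^ 2 ≠ 4) (x : H3)
    (hx : ∃ A ∈ G, A ≠ 1 ∧ A ≠ -1 ∧ dl (act A x) x ≤ ε) :
    ∃ y : H3, (∃ B ∈ G, B ≠ 1 ∧ B ≠ -1 ∧ dl (act B y) y ≤ ε ∧ dl x y ≤ ε / ‖trc B ^ 2 - 4‖) ∧
      ∀ C ∈ G, C ≠ 1 → C ≠ -1 → ε ≤ dl (act C y) y := by
  obtain ⟨A, hA, hA1, hA2, hAx⟩ := hx
  obtain ⟨h, hDA⟩ := exists_diag A (hnp A hA hA1 hA2)
  set p := act h⁻¹ x with hp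
  have hxp : x = act h p := by rw [hp, ← act_mul, mul_inv_cancel, act_one]
  set a : SL2C → ℝ := fun B => ‖(h⁻¹ * B * h) 0 0‖ ^ 2 + ‖(h⁻¹ * B * h) 1 1‖ ^ 2 - 2 with ha
  set b : SL2C → ℝ := fun B => ‖trc B ^ 2 - 4‖ with hb
  have hbpos : ∀ B ∈ G, B ≠ 1 → B ≠ -1 → 0 < b B := by
    intro B hB h1 h2
    exact norm_pos_iff.mpr (sub_ne_zero.mpr (hnp B hB h1 h2))
  have hdisp : ∀ B, Dg h B → ∀ q : H3, dl (act B (act h q)) (act h q) =
      a B + ‖q.1.1‖ ^ 2 / q.1.2 ^ 2 * b B := fun B hB q => disp_dg hB q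
  have hann : ∀ B, Dg h B → 0 ≤ a B := fun B hB => diag_nonneg hB
  clear_value a b
  have ht : 0 < p.1.2 := p.2
  set ρ : SL2C → ℝ := fun B => p.1.2 * Real.sqrt ((ε - a B) / b B) with hρ
  have hfin : {B : SL2C | B ∈ G ∧ B ≠ 1 ∧ B ≠ -1 ∧ Dg h B ∧ dl (act B x) x ≤ ε}.Finite :=
    (hG x ε).subset (fun B hB => ⟨hB.1, hB.2.2.2.2⟩)
  obtain ⟨B, ⟨hB, hB1, hB2, hDB, hBx⟩, hmax⟩ := Set.exists_max_image _ ρ hfin
    ⟨A, hA, hA1, hA2, hDA, hAx⟩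
  -- facts on the elements of the finite set
  have hρ1 : ∀ C, C ∈ G → C ≠ 1 → C ≠ -1 → Dg h C → dl (act C x) x ≤ ε →
      0 ≤ (ε - a C) / b C ∧ ‖p.1.1‖ ≤ ρ C ∧ a C + (ρ C) ^ 2 / p.1.2 ^ 2 * b C = ε := by
    intro C hC hC1 hC2 hDC hCx
    have hbC := hbpos C hC hC1 hC2
    rw [hxp, hdisp C hDC] at hCx
    have h1 : ‖p.1.1‖ ^ 2 / p.1.2 ^ 2 ≤ (ε - a C) / b C := by
      rw [le_div_iff₀ hbC]
      linarith
    have h0 : 0 ≤ (ε - a C) / b C := le_trans (by positivity) h1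
    refine ⟨h0, ?_, ?_⟩
    · rw [hρ]
      simp only
      rw [← div_le_iff₀' ht]
      apply Real.le_sqrt_of_sq_le
      rwa [div_pow]
    · rw [hρ]
      simp only
      rw [mul_pow, Real.sq_sqrt h0]
      field_simp
      ring
  obtain ⟨hB0, hBρ, hBe⟩ := hρ1 B hB hB1 hB2 hDB hBx
  obtain ⟨w, hw, hzw⟩ := exists_ext p.1.1 (ρ B) hBρ
  set q : H3 := ⟨(w, p.1.2), p.2⟩ with hq
  have hq1 : ‖q.1.1‖ = ρ B := hw
  have hq2 : q.1.2 = p.1.2 := rfl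
  refine ⟨act h q, ⟨B, hB, hB1, hB2, ?_, ?_⟩, ?_⟩
  · rw [hdisp B hDB, hq1, hq2, hBe]
  · rw [hxp, dl_act]
    have e : dl p q = ‖p.1.1 - w‖ ^ 2 / p.1.2 ^ 2 := by
      unfold dl
      rw [hq]
      simp only
      rw [sub_self]
      ring
    rw [e]
    have hbB := hbpos B hB hB1 hB2
    have h1 : ‖p.1.1 - w‖ ^ 2 / p.1.2 ^ 2 ≤ ρ B ^ 2 / p.1.2 ^ 2 := by
      apply div_le_div_of_nonneg_right _ (by positivity)
      exact pow_le_pow_left₀ (norm_nonneg _) hzw 2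
    have h2 : ρ B ^ 2 / p.1.2 ^ 2 ≤ ε / b B := by
      rw [le_div_iff₀ hbB]
      have := hann B hDB
      linarith
    have h3 : b B = ‖trc B ^ 2 - 4‖ := by rw [hb]
    rw [← h3]
    exact h1.trans h2
  · intro C hC hC1 hC2
    by_contra hlt
    push Not at hlt
    have hDC : Dg h C := by
      refine hsame (act h q) h B C hB hB1 hB2 hC hC1 hC2 ?_ hlt.le hDB
      rw [hdisp B hDB, hq1, hq2, hBe]
    have hbC := hbpos C hC hC1 hC2
    rw [hdisp C hDC, hq1, hq2] at hlt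
    by_cases hCx : dl (act C x) x ≤ ε
    · obtain ⟨hC0, hCρ, hCe⟩ := hρ1 C hC hC1 hC2 hDC hCx
      have hle := hmax C ⟨hC, hC1, hC2, hDC, hCx⟩
      have h0 : 0 ≤ ρ C := (norm_nonneg _).trans hCρ
      have h1 : ρ C ^ 2 / p.1.2 ^ 2 * b C ≤ ρ B ^ 2 / p.1.2 ^ 2 * b C := by
        apply mul_le_mul_of_nonneg_right _ hbC.le
        apply div_le_div_of_nonneg_right _ (by positivity)
        exact pow_le_pow_left₀ h0 hle 2
      linarith
    · push Not at hCx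
      rw [hxp, hdisp C hDC] at hCx
      have h1 : ‖p.1.1‖ ^ 2 / p.1.2 ^ 2 * b C ≤ ρ B ^ 2 / p.1.2 ^ 2 * b C := by
        apply mul_le_mul_of_nonneg_right _ hbC.le
        apply div_le_div_of_nonneg_right _ (by positivity)
        exact pow_le_pow_left₀ (norm_nonneg _) hBρ 2
      linarith

/-- boxes are compact -/
theorem compact_box (R a b : ℝ) (ha : 0 < a) :
    IsCompact {p : H3 | ‖p.1.1‖ ≤ R ∧ a ≤ p.1.2 ∧ p.1.2 ≤ b} := by
  have hind : Topology.IsInducing (Subtype.val : H3 → ℂ × ℝ) := Topology.IsInducing.subtypeVal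
  rw [hind.isCompact_iff]
  have : (Subtype.val '' {p : H3 | ‖p.1.1‖ ≤ R ∧ a ≤ p.1.2 ∧ p.1.2 ≤ b}) =
      Metric.closedBall (0 : ℂ) R ×ˢ Set.Icc a b := by
    ext q
    simp only [Set.mem_image, Set.mem_ofPred_eq, Set.mem_prod, Metric.mem_closedBall,
      dist_zero_right, Set.mem_Icc]
    constructor
    · rintro ⟨p, ⟨h1, h2, h3⟩, rfl⟩
      exact ⟨h1, h2, h3⟩
    · rintro ⟨h1, h2, h3⟩
      exact ⟨⟨q, lt_of_lt_of_le ha h2⟩, ⟨h1, h2, h3⟩, rfl⟩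
  rw [this]
  exact (isCompact_closedBall _ _).prod isCompact_Icc

/-- compact sets are contained in boxes -/
theorem box_of_compact {K : Set H3} (hK : IsCompact K) :
    ∃ R : ℝ, 1 ≤ R ∧ ∀ y ∈ K, ‖y.1.1‖ ≤ R ∧ y.1.2 ≤ R ∧ 1 / y.1.2 ≤ R := by
  have c1 : Continuous (fun y : H3 => ‖y.1.1‖) := by fun_prop
  have c2 : Continuous (fun y : H3 => y.1.2) := by fun_prop
  have c3 : Continuous (fun y : H3 => 1 / y.1.2) :=
    continuous_const.div c2 (fun y => y.2.ne')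
  obtain ⟨R1, h1⟩ := (hK.image c1).bddAbove
  obtain ⟨R2, h2⟩ := (hK.image c2).bddAbove
  obtain ⟨R3, h3⟩ := (hK.image c3).bddAbove
  refine ⟨max 1 (max R1 (max R2 R3)), le_max_left _ _, ?_⟩
  intro y hy
  refine ⟨?_, ?_, ?_⟩
  · exact (h1 (Set.mem_image_of_mem _ hy)).trans ((le_max_left _ _).trans (le_max_right _ _))
  · exact (h2 (Set.mem_image_of_mem _ hy)).trans
      ((le_max_left _ _).trans ((le_max_right _ _).trans (le_max_right _ _)))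
  · exact (h3 (Set.mem_image_of_mem _ hy)).trans
      ((le_max_right _ _).trans ((le_max_right _ _).trans (le_max_right _ _)))

/-- neighbourhoods of compact sets are contained in compact sets -/
theorem compact_nhd {K : Set H3} (hK : IsCompact K) (M : ℝ) :
    ∃ K' : Set H3, IsCompact K' ∧ ∀ x : H3, (∃ y ∈ K, dl x y ≤ M) → x ∈ K' := by
  obtain ⟨R, hR, hb⟩ := box_of_compact hK
  have hM0 : 0 ≤ |M| := abs_nonneg M
  refine ⟨_, compact_box (R + (|M| * (|M| + 2) * R ^ 2 + 1)) (1 / ((|M| + 2) * R))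
    ((|M| + 2) * R) (by positivity), ?_⟩
  rintro x ⟨y, hy, hxy⟩
  obtain ⟨h1, h2, h3⟩ := hb y hy
  have hx := x.2
  have hy' := y.2
  have hpos : 0 < x.1.2 * y.1.2 := mul_pos hx hy'
  have hd : ‖x.1.1 - y.1.1‖ ^ 2 + (x.1.2 - y.1.2) ^ 2 ≤ |M| * (x.1.2 * y.1.2) := by
    have : dl x y ≤ |M| := hxy.trans (le_abs_self M)
    unfold dl at this
    rwa [div_le_iff₀ hpos] at this
  have hsq := sq_nonneg ‖x.1.1 - y.1.1‖
  have e1 : x.1.2 ≤ (|M| + 2) * y.1.2 := by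
    by_contra hlt
    push Not at hlt
    nlinarith [mul_lt_mul_of_pos_right hlt hx, sq_nonneg y.1.2]
  have e2 : y.1.2 ≤ (|M| + 2) * x.1.2 := by
    by_contra hlt
    push Not at hlt
    nlinarith [mul_lt_mul_of_pos_right hlt hy', sq_nonneg x.1.2]
  have e3 : x.1.2 ≤ (|M| + 2) * R := e1.trans (by gcongr)
  refine ⟨?_, ?_, e3⟩
  · have k1 : ‖x.1.1‖ ≤ ‖x.1.1 - y.1.1‖ + ‖y.1.1‖ := by
      have := norm_add_le (x.1.1 - y.1.1) y.1.1
      rwa [sub_add_cancel] at this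
    have k2 : ‖x.1.1 - y.1.1‖ ^ 2 ≤ |M| * (|M| + 2) * R ^ 2 := by
      have : x.1.2 * y.1.2 ≤ ((|M| + 2) * R) * R := by gcongr
      nlinarith [sq_nonneg (x.1.2 - y.1.2), mul_le_mul_of_nonneg_left this hM0]
    have k3 : ‖x.1.1 - y.1.1‖ ≤ |M| * (|M| + 2) * R ^ 2 + 1 := by
      nlinarith [sq_nonneg (‖x.1.1 - y.1.1‖ - 1)]
    linarith
  · rw [div_le_iff₀ (by positivity)]
    rw [div_le_iff₀ hy'] at h3
    have : 1 ≤ R * ((|M| + 2) * x.1.2) := h3.trans (by gcongr)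
    linarith

/-- finitely many elements move some point of a compact set by at most `ε` -/
theorem finite_compact {G : Subgroup SL2C} (hG : Disc G) {K : Set H3} (hK : IsCompact K) (ε : ℝ) :
    {B : SL2C | B ∈ G ∧ ∃ y ∈ K, dl (act B y) y ≤ ε}.Finite := by
  obtain ⟨R, hR, hb⟩ := box_of_compact hK
  refine (hG pj ((R + R ^ 3 + R) ^ 2 * (2 + |ε|))).subset ?_
  rintro B ⟨hB, y, hy, hd⟩
  refine ⟨hB, ?_⟩
  obtain ⟨h1, h2, h3⟩ := hb y hy
  have hs0 : 0 < Real.sqrt y.1.2 := Real.sqrt_pos.mpr y.2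
  have hs2 : Real.sqrt y.1.2 ^ 2 = y.1.2 := Real.sq_sqrt y.2.le
  have hfu : fro (up y) ≤ R + R ^ 3 + R := by
    unfold fro
    rw [up_00, up_01, up_10, up_11, norm_div, norm_div, Complex.norm_real, norm_zero, norm_one,
      Real.norm_of_nonneg hs0.le, div_pow, div_pow, hs2]
    have k1 : ‖y.1.1‖ ^ 2 / y.1.2 ≤ R ^ 3 := by
      have : ‖y.1.1‖ ^ 2 / y.1.2 = ‖y.1.1‖ ^ 2 * (1 / y.1.2) := by ring
      rw [this]
      have k2 : ‖y.1.1‖ ^ 2 ≤ R ^ 2 := pow_le_pow_left₀ (norm_nonneg _) h1 2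
      calc ‖y.1.1‖ ^ 2 * (1 / y.1.2) ≤ R ^ 2 * R := by
            apply mul_le_mul k2 h3 (by have := y.2; positivity) (by positivity)
        _ = R ^ 3 := by ring
    have k3 : (1 : ℝ) ^ 2 / y.1.2 ≤ R := by simpa using h3
    have k4 : (0 : ℝ) ^ 2 = 0 := by norm_num
    rw [k4]
    linarith
  have hfc : fro ((up y)⁻¹ * B * up y) ≤ 2 + |ε| := by
    rw [fro_up_conj]
    linarith [hd.trans (le_abs_self ε)]
  have e : B = up y * ((up y)⁻¹ * B * up y) * (up y)⁻¹ := by group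
  have h4 : fro B ≤ (R + R ^ 3 + R) * (2 + |ε|) * (R + R ^ 3 + R) := by
    rw [e]
    refine (fro_mul_le _ _).trans ?_
    rw [fro_inv]
    have hR3 : 0 ≤ R + R ^ 3 + R := by positivity
    apply mul_le_mul _ hfu (fro_nonneg _) (by positivity)
    refine (fro_mul_le _ _).trans ?_
    exact mul_le_mul hfu hfc (fro_nonneg _) hR3
  rw [fro_eq] at h4
  linarith

/-- M1 -/
theorem stmM1 (hMa : StmMa) (hMb : StmMb) (hMc : StmMc) : StmM1 := by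
  obtain ⟨ε, hε, hsame⟩ := same hMa hMb
  intro G _ hG hT hF hC
  by_contra hcon
  have hnp : ∀ A ∈ G, A ≠ 1 → A ≠ -1 → trc A ^ 2 ≠ 4 := by
    intro A hA h1 h2 h3
    exact hcon ⟨A, hA, h1, h2, h3⟩
  apply hC
  obtain ⟨K, hK, hthick⟩ := hMc G hG hT hF ε hε
  obtain ⟨M, hM⟩ := ((finite_compact hG hK ε).image
    (fun B => ε / ‖trc B ^ 2 - 4‖)).bddAbove
  obtain ⟨K', hK', hsub⟩ := compact_nhd hK (max M 0)
  refine ⟨K', hK', ?_⟩
  intro x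
  by_cases hx : ∀ A ∈ G, A ≠ 1 → A ≠ -1 → ε ≤ dl (act A x) x
  · obtain ⟨A, hA, hAx⟩ := hthick x hx
    exact ⟨A, hA, hsub _ ⟨_, hAx, by rw [dl_self]; exact le_max_right _ _⟩⟩
  · push Not at hx
    obtain ⟨A, hA, hA1, hA2, hAx⟩ := hx
    obtain ⟨y, ⟨B, hB, hB1, hB2, hBy, hxy⟩, hy⟩ := reach hG (hsame G hG hT) hnp x
      ⟨A, hA, hA1, hA2, hAx.le⟩
    obtain ⟨C, hC, hCy⟩ := hthick y hy
    refine ⟨C, hC, hsub _ ⟨_, hCy, ?_⟩⟩
    rw [dl_act]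
    refine hxy.trans ?_
    have h1 : ε / ‖trc (C * B * C⁻¹) ^ 2 - 4‖ ≤ M := by
      apply hM
      refine ⟨C * B * C⁻¹, ⟨G.mul_mem (G.mul_mem hC hB) (G.inv_mem hC), act C y, hCy, ?_⟩, rfl⟩
      rw [← act_mul]
      have : C * B * C⁻¹ * C = C * B := by group
      rw [this, act_mul, dl_act]
      exact hBy
    rw [trc_conj'] at h1
    exact h1.trans (le_max_left _ _)

end Pool.Agent.N839.LS
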