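import Pool.Agent.N530.LS.Stm3

/-!
# Part M1 of the project LS: diagonalisation and displacements
-/

set_option autoImplicit false

namespace Pool.Agent.N839.LS

open Pool.Agent.N530.LS Matrix Complex Filter Topology

theorem ext4 {A B : SL2C} (h00 : A 0 0 = B 0 0) (h01 : A 0 1 = B 0 1) (h10 : A 1 0 = B 1 0)
    (h11 : A 1 1 = B 1 1) : A = B := by
  ext i j
  fin_cases i <;> fin_cases j
  · exact h00
  · exact h01
  · exact h10
  · exact h11

theorem mul_00 (A B : SL2C) : (A * B) 0 0 = A 0 0 * B 0 0 + A 0 1 * B 1 0 := by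
  rw [Matrix.SpecialLinearGroup.coe_mul, Matrix.mul_apply, Fin.sum_univ_two]

theorem mul_01 (A B : SL2C) : (A * B) 0 1 = A 0 0 * B 0 1 + A 0 1 * B 1 1 := by
  rw [Matrix.SpecialLinearGroup.coe_mul, Matrix.mul_apply, Fin.sum_univ_two]

theorem mul_10 (A B : SL2C) : (A * B) 1 0 = A 1 0 * B 0 0 + A 1 1 * B 1 0 := by
  rw [Matrix.SpecialLinearGroup.coe_mul, Matrix.mul_apply, Fin.sum_univ_two]

theorem mul_11 (A B : SL2C) : (A * B) 1 1 = A 1 0 * B 0 1 + A 1 1 * B 1 1 := by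
  rw [Matrix.SpecialLinearGroup.coe_mul, Matrix.mul_apply, Fin.sum_univ_two]

theorem inv_00 (A : SL2C) : A⁻¹ 0 0 = A 1 1 := by
  rw [Matrix.SpecialLinearGroup.coe_inv, Matrix.adjugate_fin_two]; rfl

theorem inv_01 (A : SL2C) : A⁻¹ 0 1 = - A 0 1 := by
  rw [Matrix.SpecialLinearGroup.coe_inv, Matrix.adjugate_fin_two]; rfl

theorem inv_10 (A : SL2C) : A⁻¹ 1 0 = - A 1 0 := by
  rw [Matrix.SpecialLinearGroup.coe_inv, Matrix.adjugate_fin_two]; rfl

theorem inv_11 (A : SL2C) : A⁻¹ 1 1 = A 0 0 := by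
  rw [Matrix.SpecialLinearGroup.coe_inv, Matrix.adjugate_fin_two]; rfl

theorem one_00 : (1 : SL2C) 0 0 = 1 := rfl
theorem one_01 : (1 : SL2C) 0 1 = 0 := rfl
theorem one_10 : (1 : SL2C) 1 0 = 0 := rfl
theorem one_11 : (1 : SL2C) 1 1 = 1 := rfl

theorem neg_00 : (-1 : SL2C) 0 0 = -1 := by simp [Matrix.SpecialLinearGroup.coe_neg]
theorem neg_01 : (-1 : SL2C) 0 1 = 0 := by simp [Matrix.SpecialLinearGroup.coe_neg]
theorem neg_10 : (-1 : SL2C) 1 0 = 0 := by simp [Matrix.SpecialLinearGroup.coe_neg]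
theorem neg_11 : (-1 : SL2C) 1 1 = -1 := by simp [Matrix.SpecialLinearGroup.coe_neg]

/-- diagonalised by `h` -/
def Dg (h A : SL2C) : Prop := (h⁻¹ * A * h) 0 1 = 0 ∧ (h⁻¹ * A * h) 1 0 = 0

theorem trc_conj (h A : SL2C) : trc (h⁻¹ * A * h) = trc A := by
  have hd := det_eq h
  unfold trc
  rw [mul_00, mul_11, mul_00, mul_01, mul_10, mul_11, inv_00, inv_01, inv_10, inv_11]
  linear_combination (A 0 0 + A 1 1) * hd

theorem trc_conj' (h A : SL2C) : trc (h * A * h⁻¹) = trc A := by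
  have := trc_conj h⁻¹ A
  rwa [inv_inv] at this

/-- a matrix from its entries -/
def mk4 (a b c d : ℂ) (h : a * d - b * c = 1) : SL2C :=
  ⟨!![a, b; c, d], by rw [Matrix.det_fin_two]; exact h⟩

theorem mk4_00 {a b c d : ℂ} {h : a * d - b * c = 1} : mk4 a b c d h 0 0 = a := rfl
theorem mk4_01 {a b c d : ℂ} {h : a * d - b * c = 1} : mk4 a b c d h 0 1 = b := rfl
theorem mk4_10 {a b c d : ℂ} {h : a * d - b * c = 1} : mk4 a b c d h 1 0 = c := rfl
theorem mk4_11 {a b c d : ℂ} {h : a * d - b * c = 1} : mk4 a b c d h 1 1 = d := rfl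

theorem exists_diag (A : SL2C) (hA : trc A ^ 2 ≠ 4) : ∃ h : SL2C, Dg h A := by
  have hd := det_eq A
  by_cases hc : A 1 0 = 0
  · have hne : A 1 1 - A 0 0 ≠ 0 := by
      intro h
      apply hA
      unfold trc
      have h1 : A 1 1 = A 0 0 := sub_eq_zero.mp h
      rw [hc, mul_zero, sub_zero] at hd
      rw [h1] at hd ⊢
      linear_combination 4 * hd
    refine ⟨mk4 1 (A 0 1 / (A 1 1 - A 0 0)) 0 1 (by ring), ?_, ?_⟩
    · rw [mul_01, mul_00, mul_01, inv_00, inv_01, mk4_01, mk4_11, hc]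
      field_simp
      ring
    · rw [mul_10, mul_10, mul_11, inv_10, inv_11, mk4_10, mk4_00, hc]
      ring
  · obtain ⟨s, hs⟩ := IsAlgClosed.exists_pow_nat_eq (trc A ^ 2 - 4) (n := 2) (by norm_num)
    have hs0 : s ≠ 0 := by
      intro h
      rw [h] at hs
      apply hA
      linear_combination -hs
    unfold trc at hs
    refine ⟨mk4 ((A 0 0 - A 1 1 + s) / 2) ((A 0 0 - A 1 1 - s) / 2 / (A 1 0 * s)) (A 1 0)
      (1 / s) (by field_simp; ring), ?_, ?_⟩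
    · rw [mul_01, mul_00, mul_01, inv_00, inv_01, mk4_01, mk4_11]
      field_simp
      linear_combination (-1) * hs - 4 * hd
    · rw [mul_10, mul_10, mul_11, inv_10, inv_11, mk4_10, mk4_00]
      linear_combination (A 1 0 / 4) * hs + A 1 0 * hd

theorem comm_aux {p q : SL2C} (hp01 : p 0 1 = 0) (hp10 : p 1 0 = 0) (h1 : p ≠ 1) (h2 : p ≠ -1)
    (hpq : p * q = q * p) : q 0 1 = 0 ∧ q 1 0 = 0 := by
  have hd := det_eq p
  rw [hp01, zero_mul, sub_zero] at hd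
  have hne : p 0 0 - p 1 1 ≠ 0 := by
    intro h0
    have h3 : p 1 1 = p 0 0 := (sub_eq_zero.mp h0).symm
    rw [h3] at hd
    have h4 : (p 0 0 - 1) * (p 0 0 + 1) = 0 := by linear_combination hd
    rcases mul_eq_zero.mp h4 with h5 | h5
    · have h6 : p 0 0 = 1 := by linear_combination h5
      exact h1 (ext4 h6 hp01 hp10 (h3.trans h6))
    · have h6 : p 0 0 = -1 := by linear_combination h5
      exact h2 (ext4 (h6.trans neg_00.symm) (hp01.trans neg_01.symm)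
        (hp10.trans neg_10.symm) ((h3.trans h6).trans neg_11.symm))
  have e01 : (p * q) 0 1 = (q * p) 0 1 := by rw [hpq]
  have e10 : (p * q) 1 0 = (q * p) 1 0 := by rw [hpq]
  rw [mul_01, mul_01, hp01] at e01
  rw [mul_10, mul_10, hp10] at e10
  constructor
  · have : (p 0 0 - p 1 1) * q 0 1 = 0 := by linear_combination e01
    rcases mul_eq_zero.mp this with h0 | h0
    · exact absurd h0 hne
    · exact h0
  · have : (p 0 0 - p 1 1) * q 1 0 = 0 := by linear_combination -e10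
    rcases mul_eq_zero.mp this with h0 | h0
    · exact absurd h0 hne
    · exact h0

theorem comm_diag {h P Q : SL2C} (hP : Dg h P) (h1 : P ≠ 1) (h2 : P ≠ -1)
    (hc : P * Q = Q * P) : Dg h Q := by
  apply comm_aux hP.1 hP.2
  · intro h3
    apply h1
    have : P = h * (h⁻¹ * P * h) * h⁻¹ := by group
    rw [this, h3]
    group
  · intro h3
    apply h2
    have : P = h * (h⁻¹ * P * h) * h⁻¹ := by group
    rw [this, h3]
    simp
  · have e1 : h⁻¹ * P * h * (h⁻¹ * Q * h) = h⁻¹ * (P * Q) * h := by group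
    have e2 : h⁻¹ * Q * h * (h⁻¹ * P * h) = h⁻¹ * (Q * P) * h := by group
    rw [e1, e2, hc]

theorem up_inv_act (x : H3) : act (up x)⁻¹ x = pj := by
  have h1 : act (up x)⁻¹ (act (up x) pj) = pj := by
    rw [← act_mul, inv_mul_cancel, act_one]
  rwa [up_pj] at h1

theorem fro_up_conj (A : SL2C) (x : H3) : fro ((up x)⁻¹ * A * up x) = 2 + dl (act A x) x := by
  rw [fro_eq, act_mul, act_mul, up_pj]
  have h := dl_act (up x)⁻¹ (act A x) x
  rw [up_inv_act] at h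
  rw [h]

theorem up_00 (p : H3) : up p 0 0 = (Real.sqrt p.1.2 : ℂ) := rfl
theorem up_01 (p : H3) : up p 0 1 = p.1.1 / (Real.sqrt p.1.2 : ℂ) := rfl
theorem up_10 (p : H3) : up p 1 0 = 0 := rfl
theorem up_11 (p : H3) : up p 1 1 = 1 / (Real.sqrt p.1.2 : ℂ) := rfl

/-- the displacement of a diagonal matrix -/
theorem disp_diag (D : SL2C) (h01 : D 0 1 = 0) (h10 : D 1 0 = 0) (p : H3) :
    dl (act D p) p = ‖D 0 0‖ ^ 2 + ‖D 1 1‖ ^ 2 - 2 +
      ‖p.1.1‖ ^ 2 / p.1.2 ^ 2 * ‖D 0 0 - D 1 1‖ ^ 2 := by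
  have h := fro_up_conj D p
  have hs0 : 0 < Real.sqrt p.1.2 := Real.sqrt_pos.mpr p.2
  have hs : (Real.sqrt p.1.2 : ℂ) ≠ 0 := by exact_mod_cast hs0.ne'
  have hs2 : Real.sqrt p.1.2 ^ 2 = p.1.2 := Real.sq_sqrt p.2.le
  have hs3 : (Real.sqrt p.1.2 : ℂ) ^ 2 = (p.1.2 : ℂ) := by exact_mod_cast hs2
  have ht : (p.1.2 : ℂ) ≠ 0 := by exact_mod_cast p.2.ne'
  have e00 : ((up p)⁻¹ * D * up p) 0 0 = D 0 0 := by
    rw [mul_00, mul_00, mul_01, inv_00, inv_01, up_00, up_01, up_10, up_11, h01, h10]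
    field_simp
    ring
  have e10 : ((up p)⁻¹ * D * up p) 1 0 = 0 := by
    rw [mul_10, mul_10, mul_11, inv_10, inv_11, up_00, up_10, h01, h10]
    ring
  have e11 : ((up p)⁻¹ * D * up p) 1 1 = D 1 1 := by
    rw [mul_11, mul_10, mul_11, inv_10, inv_11, up_00, up_01, up_10, up_11, h01, h10]
    field_simp
    ring
  have e01 : ((up p)⁻¹ * D * up p) 0 1 = p.1.1 / (p.1.2 : ℂ) * (D 0 0 - D 1 1) := by
    rw [mul_01, mul_00, mul_01, inv_00, inv_01, up_01, up_11, h01, h10, ← hs3]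
    field_simp
    ring
  rw [fro, e00, e10, e11, e01, norm_mul, norm_div, Complex.norm_real,
    Real.norm_of_nonneg p.2.le, norm_zero] at h
  have : dl (act D p) p = ‖D 0 0‖ ^ 2 + (‖p.1.1‖ / p.1.2 * ‖D 0 0 - D 1 1‖) ^ 2 + 0 ^ 2 +
      ‖D 1 1‖ ^ 2 - 2 := by linarith
  rw [this, mul_pow, div_pow]
  ring

theorem disp_dg {h B : SL2C} (hB : Dg h B) (q : H3) :
    dl (act B (act h q)) (act h q) = ‖(h⁻¹ * B * h) 0 0‖ ^ 2 + ‖(h⁻¹ * B * h) 1 1‖ ^ 2 - 2 +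
      ‖q.1.1‖ ^ 2 / q.1.2 ^ 2 * ‖trc B ^ 2 - 4‖ := by
  have h1 := disp_diag (h⁻¹ * B * h) hB.1 hB.2 q
  have h2 : dl (act (h⁻¹ * B * h) q) q = dl (act B (act h q)) (act h q) := by
    have h3 := dl_act h⁻¹ (act B (act h q)) (act h q)
    rw [← act_mul h⁻¹ h, inv_mul_cancel, act_one] at h3
    rw [← h3, act_mul, act_mul]
  have h4 : ‖(h⁻¹ * B * h) 0 0 - (h⁻¹ * B * h) 1 1‖ ^ 2 = ‖trc B ^ 2 - 4‖ := by
    rw [← norm_pow]
    congr 1
    rw [← trc_conj h B]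
    have hd := det_eq (h⁻¹ * B * h)
    rw [hB.1, zero_mul, sub_zero] at hd
    unfold trc
    linear_combination (-4) * hd
  rw [← h2, h1, h4]

/-- the constant part of the displacement is nonnegative -/
theorem diag_nonneg {h B : SL2C} (hB : Dg h B) :
    0 ≤ ‖(h⁻¹ * B * h) 0 0‖ ^ 2 + ‖(h⁻¹ * B * h) 1 1‖ ^ 2 - 2 := by
  have hd := det_eq (h⁻¹ * B * h)
  rw [hB.1, zero_mul, sub_zero] at hd
  have h1 : ‖(h⁻¹ * B * h) 0 0‖ * ‖(h⁻¹ * B * h) 1 1‖ = 1 := by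
    rw [← norm_mul, hd, norm_one]
  nlinarith [sq_nonneg (‖(h⁻¹ * B * h) 0 0‖ - ‖(h⁻¹ * B * h) 1 1‖)]

/-! ### `ds` and `fro` -/

theorem ds_nonneg (A : SL2C) : 0 ≤ ds A := by
  unfold ds
  positivity

theorem ds_eq_zero {A : SL2C} (h : ds A = 0) : A = 1 := by
  unfold ds at h
  have h0 := norm_nonneg (A 0 0 - 1)
  have h1 := norm_nonneg (A 0 1)
  have h2 := norm_nonneg (A 1 0)
  have h3 := norm_nonneg (A 1 1 - 1)
  have k0 : A 0 0 - 1 = 0 := norm_eq_zero.mp (le_antisymm (by linarith) h0)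
  have k3 : A 1 1 - 1 = 0 := norm_eq_zero.mp (le_antisymm (by linarith) h3)
  apply ext4
  · exact sub_eq_zero.mp k0
  · exact norm_eq_zero.mp (le_antisymm (by linarith) h1)
  · exact norm_eq_zero.mp (le_antisymm (by linarith) h2)
  · exact sub_eq_zero.mp k3

theorem fro_le_of_ds {A : SL2C} {c : ℝ} (h : ds A ≤ c) : fro A ≤ 4 * (1 + c) ^ 2 := by
  unfold ds at h
  have h0 := norm_nonneg (A 0 0 - 1)
  have h1 := norm_nonneg (A 0 1)
  have h2 := norm_nonneg (A 1 0)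
  have h3 := norm_nonneg (A 1 1 - 1)
  have hc : 0 ≤ c := by linarith
  have k0 : ‖A 0 0‖ ≤ 1 + c := by
    have : ‖A 0 0‖ ≤ ‖A 0 0 - 1‖ + ‖(1 : ℂ)‖ := by
      have := norm_add_le (A 0 0 - 1) 1
      rwa [sub_add_cancel] at this
    rw [norm_one] at this
    linarith
  have k3 : ‖A 1 1‖ ≤ 1 + c := by
    have : ‖A 1 1‖ ≤ ‖A 1 1 - 1‖ + ‖(1 : ℂ)‖ := by
      have := norm_add_le (A 1 1 - 1) 1
      rwa [sub_add_cancel] at this
    rw [norm_one] at this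
    linarith
  have k1 : ‖A 0 1‖ ≤ 1 + c := by linarith
  have k2 : ‖A 1 0‖ ≤ 1 + c := by linarith
  unfold fro
  have s0 := pow_le_pow_left₀ (norm_nonneg (A 0 0)) k0 2
  have s1 := pow_le_pow_left₀ (norm_nonneg (A 0 1)) k1 2
  have s2 := pow_le_pow_left₀ (norm_nonneg (A 1 0)) k2 2
  have s3 := pow_le_pow_left₀ (norm_nonneg (A 1 1)) k3 2
  linarith

theorem fro_nonneg (A : SL2C) : 0 ≤ fro A := by
  unfold fro
  positivity

theorem fro_inv (A : SL2C) : fro A⁻¹ = fro A := by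
  unfold fro
  rw [inv_00, inv_01, inv_10, inv_11, norm_neg, norm_neg]
  ring

theorem cs2 (a b c d : ℂ) : ‖a * b + c * d‖ ^ 2 ≤
    (‖a‖ ^ 2 + ‖c‖ ^ 2) * (‖b‖ ^ 2 + ‖d‖ ^ 2) := by
  have h := norm_add_le (a * b) (c * d)
  rw [norm_mul, norm_mul] at h
  have h2 := pow_le_pow_left₀ (norm_nonneg _) h 2
  nlinarith [sq_nonneg (‖a‖ * ‖d‖ - ‖c‖ * ‖b‖)]

theorem fro_mul_le (A B : SL2C) : fro (A * B) ≤ fro A * fro B := by
  unfold fro
  rw [mul_00, mul_01, mul_10, mul_11]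
  have h0 := cs2 (A 0 0) (B 0 0) (A 0 1) (B 1 0)
  have h1 := cs2 (A 0 0) (B 0 1) (A 0 1) (B 1 1)
  have h2 := cs2 (A 1 0) (B 0 0) (A 1 1) (B 1 0)
  have h3 := cs2 (A 1 0) (B 0 1) (A 1 1) (B 1 1)
  nlinarith

theorem finite_ds {G : Subgroup SL2C} (hG : Disc G) (x : H3) (c : ℝ) :
    {A : SL2C | A ∈ G ∧ ds ((up x)⁻¹ * A * up x) ≤ c}.Finite := by
  refine (hG x (4 * (1 + c) ^ 2 - 2)).subset ?_
  rintro A ⟨hA, hd⟩
  refine ⟨hA, ?_⟩
  have h1 := fro_le_of_ds hd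
  rw [fro_up_conj] at h1
  linarith

theorem dl_self (x : H3) : dl x x = 0 := by
  unfold dl
  simp

end Pool.Agent.N839.LS
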